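import Pool.Agent.Lib.H30T.Num

/-!
# The lower bound

A graph with `H q k n` edges and at least `q! 2^k` proper `q`-colourings.
-/

namespace Pool.Agent.H30T

open Finset SimpleGraph

/-- The class of the large parts not adjacent to a residue. -/
def rho (p r : ℕ) : ℕ := if 2 ≤ r then r - 2 else p

/-- The non-adjacency relation of the extremal graph. -/
def nadj (p ν k : ℕ) : Fin ν ⊕ (Fin (p + 1) × Fin k) → Fin ν ⊕ (Fin (p + 1) × Fin k) → Prop
  | .inl x, .inl y => (x : ℕ) % (p + 2) = (y : ℕ) % (p + 2)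
  | .inl x, .inr b => rho p ((x : ℕ) % (p + 2)) = (b.1 : ℕ)
  | .inr a, .inl y => rho p ((y : ℕ) % (p + 2)) = (a.1 : ℕ)
  | .inr a, .inr b => a.1 = b.1

instance (p ν k : ℕ) : DecidableRel (nadj p ν k) := by
  rintro (x | a) (y | b) <;> unfold nadj <;> infer_instance

/-- The extremal graph. -/
def lowG (p ν k : ℕ) : SimpleGraph (Fin ν ⊕ (Fin (p + 1) × Fin k)) where
  Adj x y := ¬ nadj p ν k x y
  symm := ⟨by
    rintro (x | a) (y | b) h h'
    · exact h (Eq.symm h')
    · exact h h'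
    · exact h h'
    · exact h (Eq.symm h')⟩
  loopless := ⟨by
    rintro (x | a) h
    · exact h rfl
    · exact h rfl⟩

instance (p ν k : ℕ) : DecidableRel (lowG p ν k).Adj := fun x y => by
  unfold lowG
  infer_instance

theorem rho_lt (p r : ℕ) (h : r < p + 2) : rho p r < p + 1 := by
  unfold rho
  split_ifs <;> omega

theorem count_rho (p ν k : ℕ) : ∑ x : Fin ν, ∑ b : Fin (p + 1) × Fin k, (if rho p ((x : ℕ) % (p + 2)) = (b.1 : ℕ) then 1 else 0) = ν * k := by
  have h : ∀ x : Fin ν, ∑ b : Fin (p + 1) × Fin k, (if rho p ((x : ℕ) % (p + 2)) = (b.1 : ℕ) then 1 else 0) = k := by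
    intro x
    rw [Fintype.sum_prod_type]
    have h1 : rho p ((x : ℕ) % (p + 2)) < p + 1 := rho_lt p _ (Nat.mod_lt _ (by omega))
    have h2 : ∀ i : Fin (p + 1), (∑ _b : Fin k, if rho p ((x : ℕ) % (p + 2)) = (i : ℕ) then 1 else 0) =
        if i = ⟨rho p ((x : ℕ) % (p + 2)), h1⟩ then k else 0 := by
      intro i
      by_cases hi : i = ⟨rho p ((x : ℕ) % (p + 2)), h1⟩
      · rw [if_pos hi, sum_congr rfl fun _ _ => if_pos (by rw [hi])]
        simp
      · rw [if_neg hi, sum_congr rfl fun _ _ => if_neg ?_]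
        · simp
        · intro h'
          exact hi (Fin.ext h'.symm)
    rw [sum_congr rfl fun i _ => h2 i, sum_ite_eq' univ]
    simp
  rw [sum_congr rfl fun x _ => h x]
  simp

theorem count_nadj (p ν k : ℕ) : #(univ.filter fun (z : (Fin ν ⊕ (Fin (p + 1) × Fin k)) × (Fin ν ⊕ (Fin (p + 1) × Fin k))) => nadj p ν k z.1 z.2) =
    cc (p + 2) ν + 2 * (ν * k) + (p + 1) * k ^ 2 := by
  rw [card_filter, ← univ_product_univ, sum_product, Fintype.sum_sum_type]
  simp only [Fintype.sum_sum_type]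
  rw [sum_add_distrib, sum_add_distrib]
  have h1 : (∑ x : Fin ν, ∑ y : Fin ν, if nadj p ν k (.inl x) (.inl y) then 1 else 0) = cc (p + 2) ν := by
    unfold cc
    rw [Finset.sum_range]
    refine sum_congr rfl fun x _ => ?_
    rw [Finset.sum_range]
    rfl
  have h2 : (∑ x : Fin ν, ∑ b : Fin (p + 1) × Fin k, if nadj p ν k (.inl x) (.inr b) then 1 else 0) = ν * k :=
    count_rho p ν k
  have h3 : (∑ a : Fin (p + 1) × Fin k, ∑ y : Fin ν, if nadj p ν k (.inr a) (.inl y) then 1 else 0) = ν * k := by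
    rw [sum_comm]
    exact count_rho p ν k
  have h4 : (∑ a : Fin (p + 1) × Fin k, ∑ b : Fin (p + 1) × Fin k, if nadj p ν k (.inr a) (.inr b) then 1 else 0) = (p + 1) * k ^ 2 := by
    have h5 : ∀ a : Fin (p + 1) × Fin k, (∑ b : Fin (p + 1) × Fin k, if nadj p ν k (.inr a) (.inr b) then 1 else 0) = k := by
      intro a
      have h6 : (∑ b : Fin (p + 1) × Fin k, if nadj p ν k (.inr a) (.inr b) then 1 else 0) =
          ∑ b : Fin (p + 1) × Fin k, if a.1 = b.1 then 1 else 0 := rfl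
      rw [h6, Fintype.sum_prod_type, sum_comm]
      have h7 : ∀ c : Fin k, (∑ i : Fin (p + 1), if a.1 = i then 1 else 0) = 1 := by
        intro c
        rw [sum_ite_eq univ, if_pos (mem_univ _)]
      rw [sum_congr rfl fun c _ => h7 c]
      simp
    rw [sum_congr rfl fun a _ => h5 a]
    simp [sq, mul_assoc]
  rw [h1, h2, h3, h4]
  ring

theorem low_card (p ν k : ℕ) : #(lowG p ν k).edgeFinset = tn (p + 2) ν + p * k * ν + (p + 1).choose 2 * k ^ 2 := by
  have h1 := two_mul_card_edgeFinset (G := lowG p ν k)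
  have h2 := two_tn (r := p + 2) (by omega) ν
  have h3 := count_nadj p ν k
  have h4 : #(univ.filter fun (z : (Fin ν ⊕ (Fin (p + 1) × Fin k)) × (Fin ν ⊕ (Fin (p + 1) × Fin k))) => nadj p ν k z.1 z.2) +
      #(univ.filter fun (z : (Fin ν ⊕ (Fin (p + 1) × Fin k)) × (Fin ν ⊕ (Fin (p + 1) × Fin k))) => (lowG p ν k).Adj z.1 z.2) =
      (ν + (p + 1) * k) * (ν + (p + 1) * k) := by
    have h5 : (univ.filter fun (z : (Fin ν ⊕ (Fin (p + 1) × Fin k)) × (Fin ν ⊕ (Fin (p + 1) × Fin k))) => (lowG p ν k).Adj z.1 z.2) =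
        (univ.filter fun (z : (Fin ν ⊕ (Fin (p + 1) × Fin k)) × (Fin ν ⊕ (Fin (p + 1) × Fin k))) => ¬ nadj p ν k z.1 z.2) := rfl
    rw [h5, card_filter_add_card_filter_not]
    simp
  have h6 : #(univ.filter fun (x, y) ↦ (lowG p ν k).Adj x y) =
      #(univ.filter fun (z : (Fin ν ⊕ (Fin (p + 1) × Fin k)) × (Fin ν ⊕ (Fin (p + 1) × Fin k))) => (lowG p ν k).Adj z.1 z.2) := rfl
  rw [h6] at h1
  rw [h3] at h4
  have h7 : (p + 1).choose 2 * 2 = (p + 1) * p := by
    rw [Nat.choose_two_right]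
    exact Nat.div_mul_cancel (Nat.even_mul_pred_self (p + 1)).two_dvd
  have h8 : 2 * (tn (p + 2) ν + p * k * ν + (p + 1).choose 2 * k ^ 2) + (cc (p + 2) ν + 2 * (ν * k) + (p + 1) * k ^ 2) =
      (ν + (p + 1) * k) * (ν + (p + 1) * k) := by
    have h9 : 2 * (tn (p + 2) ν + p * k * ν + (p + 1).choose 2 * k ^ 2) + (cc (p + 2) ν + 2 * (ν * k) + (p + 1) * k ^ 2) =
      (2 * tn (p + 2) ν + cc (p + 2) ν) + 2 * (p * k * ν) + (p + 1).choose 2 * 2 * k ^ 2 + 2 * (ν * k) + (p + 1) * k ^ 2 := by ring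
    rw [h9, h2, h7]
    ring
  omega

/-- The colour class of the vertex in a large part. -/
def typ (p : ℕ) (i : Fin (p + 1)) (b : Bool) : Fin (p + 2) :=
  if h : (i : ℕ) < p then ⟨i + 2, by omega⟩ else if b then ⟨1, by omega⟩ else ⟨0, by omega⟩

/-- The colour class of the vertices. -/
def ctyp (p ν k : ℕ) (g : Fin k → Bool) : Fin ν ⊕ (Fin (p + 1) × Fin k) → Fin (p + 2)
  | .inl x => ⟨(x : ℕ) % (p + 2), Nat.mod_lt _ (by omega)⟩
  | .inr a => typ p a.1 (g a.2)

theorem typ_ne (p : ℕ) (i i' : Fin (p + 1)) (b b' : Bool) (h : i ≠ i') : typ p i b ≠ typ p i' b' := by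
  have h0 : (i : ℕ) ≠ (i' : ℕ) := fun h' => h (Fin.ext h')
  have h1 := i.2
  have h2 := i'.2
  unfold typ
  intro h'
  split_ifs at h' <;> simp only [Fin.mk.injEq] at h' <;> omega

theorem typ_ne' (p r : ℕ) (hr : r < p + 2) (i : Fin (p + 1)) (b : Bool) (h : rho p r ≠ (i : ℕ)) :
    (⟨r, hr⟩ : Fin (p + 2)) ≠ typ p i b := by
  have h1 := i.2
  unfold typ
  unfold rho at h
  intro h'
  split_ifs at h' h <;> simp only [Fin.mk.injEq] at h' <;> omega

theorem ctyp_ne (p ν k : ℕ) (g : Fin k → Bool) {x y : Fin ν ⊕ (Fin (p + 1) × Fin k)} (h : (lowG p ν k).Adj x y) :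
    ctyp p ν k g x ≠ ctyp p ν k g y := by
  rcases x with x | a <;> rcases y with y | b
  · intro h'
    exact h (congrArg Fin.val h')
  · exact typ_ne' p _ _ _ _ h
  · exact (typ_ne' p _ _ _ _ h).symm
  · exact typ_ne p _ _ _ _ h

/-- The colourings of the extremal graph. -/
def lowC (p ν k : ℕ) (s : Equiv.Perm (Fin (p + 2)) × (Fin k → Bool)) : (lowG p ν k).Coloring (Fin (p + 2)) :=
  SimpleGraph.Coloring.mk (fun x => s.1 (ctyp p ν k s.2 x)) (fun {_ _} h h' => ctyp_ne p ν k s.2 h (s.1.injective h'))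

theorem lowC_inj (p ν k : ℕ) (hν : p + 2 ≤ ν) : Function.Injective (lowC p ν k) := by
  rintro ⟨s, g⟩ ⟨s', g'⟩ h
  have h0 : ∀ x, s (ctyp p ν k g x) = s' (ctyp p ν k g' x) := fun x =>
    congrArg (fun D : (lowG p ν k).Coloring (Fin (p + 2)) => D x) h
  have hs : s = s' := by
    ext r
    have h1 := h0 (.inl ⟨r, lt_of_lt_of_le r.2 hν⟩)
    have h2 : ctyp p ν k g (.inl ⟨r, lt_of_lt_of_le r.2 hν⟩) = r := Fin.ext (Nat.mod_eq_of_lt r.2)
    have h3 : ctyp p ν k g' (.inl ⟨r, lt_of_lt_of_le r.2 hν⟩) = r := Fin.ext (Nat.mod_eq_of_lt r.2)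
    rw [h2, h3] at h1
    rw [h1]
  subst hs
  have hg : g = g' := by
    funext a
    have h1 := s.injective (h0 (.inr (⟨p, by omega⟩, a)))
    have h2 : ∀ g : Fin k → Bool, ctyp p ν k g (.inr (⟨p, by omega⟩, a)) = if g a then ⟨1, by omega⟩ else ⟨0, by omega⟩ := by
      intro g
      have h3 : ctyp p ν k g (.inr (⟨p, by omega⟩, a)) = typ p ⟨p, by omega⟩ (g a) := rfl
      rw [h3]
      unfold typ
      rw [dif_neg (by simp)]
    rw [h2, h2] at h1
    cases hga : g a <;> cases hga' : g' a <;> simp [hga, hga'] at h1 ⊢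
  rw [hg]

/-- The number of colourings of the extremal graph. -/
theorem low_count (p ν k : ℕ) (hν : p + 2 ≤ ν) :
    (p + 2).factorial * 2 ^ k ≤ Nat.card ((lowG p ν k).Coloring (Fin (p + 2))) := by
  have h1 := Nat.card_le_card_of_injective _ (lowC_inj p ν k hν)
  have h2 : Nat.card (Equiv.Perm (Fin (p + 2)) × (Fin k → Bool)) = (p + 2).factorial * 2 ^ k := by
    rw [Nat.card_eq_fintype_card, Fintype.card_prod, Fintype.card_perm]
    simp
  rw [h2] at h1
  exact h1

/-- There is a graph with `m` edges and at least `q! 2^k` proper `q`-colourings. -/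
theorem lower {q : ℕ} (hq : 2 ≤ q) {n k m : ℕ} (hk : (q - 1) * k ≤ n) (hm : tn (q - 1) n < m) (hm' : m ≤ H q k n) :
    ∃ G : SimpleGraph (Fin n), G.edgeSet.ncard = m ∧ q.factorial * 2 ^ k ≤ Nat.card (G.Coloring (Fin q)) := by
  classical
  obtain ⟨p, rfl⟩ := Nat.exists_eq_add_of_le' hq
  obtain ⟨ν, rfl⟩ := Nat.exists_eq_add_of_le hk
  have hν : p + 2 ≤ ν := by
    by_contra hlt
    rw [not_le] at hlt
    rw [H_short hq hlt] at hm'
    omega
  rw [H_closed hq] at hm'
  have hp1 : p + 2 - 1 = p + 1 := by omega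
  have hp2 : p + 2 - 2 = p := by omega
  rw [hp1, hp2] at hm'
  rw [hp1] at hm hk
  have hm2 : m ≤ #(lowG p ν k).edgeFinset := by
    rw [low_card]
    exact hm'
  obtain ⟨S, hS, hSm⟩ := exists_subset_card_eq hm2
  have e : (Fin ν ⊕ (Fin (p + 1) × Fin k)) ≃ Fin ((p + 2 - 1) * k + ν) :=
    Fintype.equivFinOfCardEq (by simp; ring)
  let G0 : SimpleGraph (Fin ν ⊕ (Fin (p + 1) × Fin k)) := SimpleGraph.fromEdgeSet (S : Set (Sym2 _))
  have hG0 : G0 ≤ lowG p ν k := by
    intro x y h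
    rw [SimpleGraph.fromEdgeSet_adj] at h
    have h1 := hS (Finset.mem_coe.mp h.1)
    rwa [SimpleGraph.mem_edgeFinset, SimpleGraph.mem_edgeSet] at h1
  have hE0 : G0.edgeSet = (S : Set (Sym2 _)) := by
    rw [SimpleGraph.edgeSet_fromEdgeSet]
    ext z
    constructor
    · exact fun h => h.1
    · intro h
      refine ⟨h, fun hd => ?_⟩
      have h1 := hS (Finset.mem_coe.mp h)
      rw [SimpleGraph.mem_edgeFinset] at h1
      exact (lowG p ν k).not_isDiag_of_mem_edgeSet h1 hd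
  refine ⟨G0.map e.toEmbedding, ?_, ?_⟩
  · have h1 := Nat.card_congr (SimpleGraph.Iso.map e G0).mapEdgeSet
    rw [Nat.card_coe_set_eq, Nat.card_coe_set_eq, hE0, Set.ncard_coe_finset, hSm] at h1
    exact h1.symm
  · refine (low_count p ν k hν).trans ?_
    let F : (lowG p ν k).Coloring (Fin (p + 2)) → (G0.map e.toEmbedding).Coloring (Fin (p + 2)) := fun C =>
      SimpleGraph.Coloring.mk (fun x => C (e.symm x)) (fun {x y} h => by
        rw [SimpleGraph.map_adj] at h
        obtain ⟨u, v, huv, hu, hv⟩ := h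
        have hu' : e.symm x = u := by rw [← hu]; exact e.symm_apply_apply u
        have hv' : e.symm y = v := by rw [← hv]; exact e.symm_apply_apply v
        rw [hu', hv']
        exact C.valid (hG0 huv))
    refine Nat.card_le_card_of_injective F ?_
    intro C C' h
    ext x
    have h1 := congrArg (fun D : (G0.map e.toEmbedding).Coloring (Fin (p + 2)) => D (e x)) h
    have h2 : C (e.symm (e x)) = C' (e.symm (e x)) := h1
    rw [e.symm_apply_apply] at h2
    rw [h2]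

end Pool.Agent.H30T
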