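import Pool.Agent.Lib.H30T.Upper
import Pool.Agent.Lib.H30T.Lower

/-!
# The maximum for the top range of the number of edges
-/

namespace Pool.Agent.H30T

open Finset SimpleGraph

theorem turan_ncard {r : ℕ} (hr : 0 < r) (n : ℕ) : (turanGraph n r).edgeSet.ncard = tn r n := by
  rw [← turan_card hr n, ← SimpleGraph.coe_edgeFinset, Set.ncard_coe_finset]

/-- The main theorem in terms of `tn` and `H`. -/
theorem main {n q m : ℕ} (hq : 2 ≤ q) (hm : tn (q - 1) n < m) (hm' : m ≤ tn q n) :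
    ∃ k, IsGreatest {j | (q - 1) * j ≤ n ∧ m ≤ H q j n} k ∧
      IsGreatest {P | ∃ G : SimpleGraph (Fin n), G.edgeSet.ncard = m ∧ Nat.card (G.Coloring (Fin q)) = P}
        (q.factorial * 2 ^ k) := by
  classical
  have h0 : (q - 1) * 0 ≤ n ∧ m ≤ H q 0 n := by
    refine ⟨by simp, ?_⟩
    have h1 := H_closed hq 0 n
    rw [Nat.mul_zero, Nat.zero_add] at h1
    rw [h1]
    omega
  have hb : ∀ j, (q - 1) * j ≤ n ∧ m ≤ H q j n → j ≤ n := by
    rintro j ⟨h1, _⟩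
    have h2 : 1 * j ≤ (q - 1) * j := Nat.mul_le_mul_right _ (by omega)
    omega
  obtain ⟨k, hk, hmax⟩ : ∃ k, IsGreatest {j | (q - 1) * j ≤ n ∧ m ≤ H q j n} k := by
    refine ⟨Nat.findGreatest (fun j => (q - 1) * j ≤ n ∧ m ≤ H q j n) n, ?_, ?_⟩
    · exact Nat.findGreatest_spec (P := fun j => (q - 1) * j ≤ n ∧ m ≤ H q j n) (Nat.zero_le n) h0
    · intro j hj
      exact Nat.le_findGreatest (hb j hj) hj
  refine ⟨k, ⟨hk, hmax⟩, ?_⟩
  have hup : ∀ G : SimpleGraph (Fin n), G.edgeSet.ncard = m →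
      Nat.card (G.Coloring (Fin q)) ≤ q.factorial * 2 ^ k := by
    intro G hG
    by_contra hlt
    rw [not_le] at hlt
    have h1 : q.factorial * 2 ^ (k + 1) < 2 * Nat.card (G.Coloring (Fin q)) := by
      rw [pow_succ]
      have h2 : q.factorial * (2 ^ k * 2) = 2 * (q.factorial * 2 ^ k) := by ring
      rw [h2]
      exact Nat.mul_lt_mul_of_pos_left hlt (by norm_num)
    have h2 := upper hq (k + 1) n (Fin n) G (Fintype.card_fin n) h1
    have h3 : #G.edgeFinset = m := by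
      rw [← hG, ← SimpleGraph.coe_edgeFinset, Set.ncard_coe_finset]
    rw [h3] at h2
    by_cases h4 : (q - 1) * (k + 1) ≤ n
    · have h5 := hmax ⟨h4, h2⟩
      omega
    · rw [H_small (by omega)] at h2
      omega
  refine ⟨?_, ?_⟩
  · obtain ⟨G, hG, hc⟩ := lower hq hk.1 hm hk.2
    exact ⟨G, hG, le_antisymm (hup G hG) hc⟩
  · rintro P ⟨G, hG, rfl⟩
    exact hup G hG

theorem tn_two_le (n : ℕ) : 4 * tn 2 n ≤ n ^ 2 := by
  have h := mul_card_edgeFinset_turanGraph_le (n := n) (r := 2)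
  rw [turan_card (by norm_num)] at h
  omega

theorem tn_three (n : ℕ) : ∃ b, n ^ 2 = 3 * tn 3 n + b ∧ b ≤ 1 := by
  have h : ∀ a, tn 3 (3 * a) = 3 * a ^ 2 := by
    intro a
    have h1 := tn_mul (r := 3) (by norm_num) a
    rw [h1]
    norm_num [Nat.choose_two_right]
  obtain ⟨a, c, hc, rfl⟩ : ∃ a c, c < 3 ∧ n = 3 * a + c := ⟨n / 3, n % 3, Nat.mod_lt _ (by norm_num), by omega⟩
  interval_cases c
  · refine ⟨0, ?_, by norm_num⟩
    rw [Nat.add_zero, h]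
    ring
  · refine ⟨1, ?_, by norm_num⟩
    rw [tn_succ, h]
    have h1 : 3 * a / 3 = a := by omega
    rw [h1]
    have h2 : 3 * a - a = 2 * a := by omega
    rw [h2]
    ring
  · refine ⟨1, ?_, by norm_num⟩
    rw [tn_succ, tn_succ, h]
    have h1 : 3 * a / 3 = a := by omega
    have h3 : (3 * a + 1) / 3 = a := by omega
    rw [h1, h3]
    have h2 : 3 * a - a = 2 * a := by omega
    have h4 : 3 * a + 1 - a = 2 * a + 1 := by omega
    rw [h2, h4]
    ring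

/-- For three colours the condition `m ≤ H 3 j n` is quadratic. -/
theorem H_three (j l m : ℕ) : m ≤ H 3 j (2 * j + l) ↔ 3 * m + (2 * j + l) * j ≤ (2 * j + l) ^ 2 + j ^ 2 := by
  have h1 := H_closed (q := 3) (by norm_num) j l
  have h2 : (3 - 1) * j + l = 2 * j + l := by norm_num
  rw [h2] at h1
  rw [h1]
  obtain ⟨b, hb, hb1⟩ := tn_three l
  have h3 : (3 - 1 : ℕ).choose 2 = 1 := by decide
  have h4 : (3 - 2 : ℕ) = 1 := by norm_num
  rw [h3, h4]
  have h5 : (2 * j + l) ^ 2 + j ^ 2 = 3 * (1 * j * l + 1 * j ^ 2) + 3 * tn 3 l + b + (2 * j + l) * j := by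
    have : 3 * (1 * j * l + 1 * j ^ 2) + 3 * tn 3 l + b + (2 * j + l) * j = (3 * tn 3 l + b) + (4 * (j * l) + 5 * j ^ 2) := by ring
    rw [this, ← hb]
    ring
  rw [h5]
  constructor
  · intro h
    omega
  · intro h
    omega

/-- The closed form for three colours. -/
theorem three_set {n m : ℕ} (h1 : n ^ 2 < 4 * m) (h2 : 3 * m ≤ n ^ 2) (j : ℕ) :
    ((3 - 1) * j ≤ n ∧ m ≤ H 3 j n) ↔ j ≤ ⌊((n : ℝ) - √(12 * m - 3 * n ^ 2)) / 2⌋₊ := by
  have h1' : (n : ℝ) ^ 2 < 4 * m := by exact_mod_cast h1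
  have h2' : 3 * (m : ℝ) ≤ n ^ 2 := by exact_mod_cast h2
  have hs : 0 ≤ √(12 * (m : ℝ) - 3 * n ^ 2) := Real.sqrt_nonneg _
  have hs2 : √(12 * (m : ℝ) - 3 * n ^ 2) ^ 2 = 12 * m - 3 * n ^ 2 := Real.sq_sqrt (by linarith)
  have hs3 : 0 < √(12 * (m : ℝ) - 3 * n ^ 2) := Real.sqrt_pos.mpr (by linarith)
  have hs4 : √(12 * (m : ℝ) - 3 * n ^ 2) ≤ n := by
    rw [Real.sqrt_le_left (by positivity)]
    linarith
  rw [Nat.le_floor_iff (by linarith)]
  constructor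
  · rintro ⟨h3, h4⟩
    obtain ⟨l, rfl⟩ := Nat.exists_eq_add_of_le h3
    have h5 : (3 - 1) * j + l = 2 * j + l := by norm_num
    rw [h5] at h4 h1' h2' hs hs2 hs3 hs4 ⊢
    rw [H_three] at h4
    have h6 : 3 * (m : ℝ) + (2 * j + l) * j ≤ (2 * j + l) ^ 2 + j ^ 2 := by exact_mod_cast h4
    push_cast at h1' h2' hs hs2 hs3 hs4 ⊢
    set s := √(12 * (m : ℝ) - 3 * (2 * j + l) ^ 2) with hsd
    have h7 : s ≤ l := by
      have hl : (0 : ℝ) ≤ l := Nat.cast_nonneg l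
      have hj : (0 : ℝ) ≤ j := Nat.cast_nonneg j
      refine abs_le_of_sq_le_sq' ?_ hl |>.2
      nlinarith
    linarith
  · intro h3
    have h4 : 2 * (j : ℝ) ≤ n := by linarith
    have h5 : 2 * j ≤ n := by exact_mod_cast h4
    obtain ⟨l, rfl⟩ := Nat.exists_eq_add_of_le h5
    refine ⟨h5, ?_⟩
    rw [H_three]
    push_cast at h3 h1' h2' hs hs2 hs3 hs4
    set s := √(12 * (m : ℝ) - 3 * (2 * j + l) ^ 2) with hsd
    have h6 : s ≤ l := by linarith
    have h7 : s ^ 2 ≤ (l : ℝ) ^ 2 := by nlinarith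
    have h8 : 3 * (m : ℝ) + (2 * j + l) * j ≤ (2 * j + l) ^ 2 + j ^ 2 := by nlinarith
    exact_mod_cast h8

end Pool.Agent.H30T
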