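import Mathlib

/-!
# The number of edges of Turan graphs, and the extremal numbers

`tn r n` is the number of edges of the Turan graph `T_r(n)`; `inc`, `H` are the numbers of the induction.
-/

namespace Pool.Agent.H30T

open Finset SimpleGraph

/-- The number of edges of the Turan graph with `n` vertices and `r` parts. -/
def tn (r n : ℕ) : ℕ := ∑ i ∈ range n, (i - i / r)

/-- The number of ordered pairs of numbers below `n` in the same class modulo `r`. -/
def cc (r n : ℕ) : ℕ := ∑ x ∈ range n, ∑ y ∈ range n, if x % r = y % r then 1 else 0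

theorem tn_succ (r n : ℕ) : tn r (n + 1) = tn r n + (n - n / r) := by
  unfold tn
  rw [sum_range_succ]

theorem count_mod {r : ℕ} (hr : 0 < r) (n : ℕ) :
    ∑ x ∈ range n, (if x % r = n % r then 1 else 0) = n / r := by
  have h1 := Nat.count_modEq_card (b := n) hr n
  rw [Nat.count_eq_card_filter_range] at h1
  rw [← card_filter]
  have h2 : (range n).filter (fun x => x ≡ n [MOD r]) = (range n).filter (fun x => x % r = n % r) := rfl
  rw [← h2, h1]
  simp

theorem cc_succ {r : ℕ} (hr : 0 < r) (n : ℕ) : cc r (n + 1) = cc r n + 2 * (n / r) + 1 := by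
  unfold cc
  rw [sum_range_succ]
  have h1 : ∀ x ∈ range n, (∑ y ∈ range (n + 1), if x % r = y % r then 1 else 0) =
      (∑ y ∈ range n, if x % r = y % r then 1 else 0) + (if x % r = n % r then 1 else 0) := by
    intro x _
    rw [sum_range_succ]
  rw [sum_congr rfl h1, sum_add_distrib, count_mod hr, sum_range_succ]
  have h2 : (∑ y ∈ range n, if n % r = y % r then 1 else 0) = n / r := by
    rw [← count_mod hr n]
    refine sum_congr rfl fun x _ => ?_
    by_cases h : x % r = n % r
    · rw [if_pos h, if_pos h.symm]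
    · rw [if_neg h, if_neg (fun h' => h h'.symm)]
  rw [h2, if_pos rfl]
  ring

theorem two_tn {r : ℕ} (hr : 0 < r) (n : ℕ) : 2 * tn r n + cc r n = n ^ 2 := by
  induction n with
  | zero => simp [tn, cc]
  | succ n ih =>
    rw [tn_succ, cc_succ hr]
    have h1 : n / r ≤ n := Nat.div_le_self n r
    have h2 : 2 * (n - n / r) + 2 * (n / r) = 2 * n := by omega
    nlinarith [ih, h2]

theorem turan_card {r : ℕ} (hr : 0 < r) (n : ℕ) : #(turanGraph n r).edgeFinset = tn r n := by
  have h1 := two_mul_card_edgeFinset (G := turanGraph n r)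
  have h2 := two_tn hr n
  have h3 : #(univ.filter fun (p : Fin n × Fin n) => (turanGraph n r).Adj p.1 p.2) + cc r n = n ^ 2 := by
    have h4 : cc r n = #(univ.filter fun (p : Fin n × Fin n) => ¬ (turanGraph n r).Adj p.1 p.2) := by
      rw [card_filter, ← univ_product_univ, sum_product]
      unfold cc
      rw [Finset.sum_range]
      refine sum_congr rfl fun x _ => ?_
      rw [Finset.sum_range]
      refine sum_congr rfl fun y _ => ?_
      by_cases h : (x : ℕ) % r = (y : ℕ) % r
      · rw [if_pos h, if_pos]
        intro h'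
        exact h' h
      · rw [if_neg h, if_neg]
        intro h'
        exact h' h
    rw [h4, card_filter_add_card_filter_not]
    simp [sq]
  have h5 : #(univ.filter fun (x, y) ↦ (turanGraph n r).Adj x y) =
      #(univ.filter fun (p : Fin n × Fin n) => (turanGraph n r).Adj p.1 p.2) := rfl
  rw [h5] at h1
  omega

/-- The increments of `H`. -/
def inc (q k i : ℕ) : ℕ := if i < (q - 1) * k then i - i / (q - 1) else i - k - (i - (q - 1) * k) / q

/-- The largest number of edges of a graph with `n` vertices and more than `q! 2^(k-1)` proper `q`-colourings. -/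
def H (q k n : ℕ) : ℕ := ∑ i ∈ range n, inc q k i

theorem H_succ (q k n : ℕ) : H q k (n + 1) = H q k n + inc q k n := by
  unfold H
  rw [sum_range_succ]

theorem le_inc {q : ℕ} (hq : 2 ≤ q) (k i : ℕ) : i - i / (q - 1) ≤ inc q k i := by
  unfold inc
  split_ifs with h
  · exact le_rfl
  · rw [not_lt] at h
    obtain ⟨j, rfl⟩ := Nat.exists_eq_add_of_le h
    have h1 : ((q - 1) * k + j) / (q - 1) = k + j / (q - 1) := by
      rw [Nat.add_comm, Nat.add_mul_div_left _ _ (by omega), Nat.add_comm]
    have h2 : j / q ≤ j / (q - 1) := Nat.div_le_div_left (by omega) (by omega)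
    rw [h1, Nat.add_sub_cancel_left]
    omega

theorem tn_le_H {q : ℕ} (hq : 2 ≤ q) (k n : ℕ) : tn (q - 1) n ≤ H q k n :=
  sum_le_sum fun i _ => le_inc hq k i

/-- For small `n` the number `H` is a Turan number. -/
theorem H_small {q : ℕ} {k n : ℕ} (h : n ≤ (q - 1) * k) : H q k n = tn (q - 1) n := by
  unfold H tn
  refine sum_congr rfl fun i hi => ?_
  unfold inc
  rw [if_pos (lt_of_lt_of_le (mem_range.mp hi) h)]

theorem tn_mul {r : ℕ} (hr : 0 < r) (k : ℕ) : tn r (r * k) = r.choose 2 * k ^ 2 := by
  induction k with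
  | zero => simp [tn]
  | succ k ih =>
    have h1 : tn r (r * (k + 1)) = tn r (r * k) + ∑ i ∈ range r, (r * k + i - (r * k + i) / r) := by
      unfold tn
      rw [Nat.mul_succ, sum_range_add]
    have h2 : ∀ i ∈ range r, (r * k + i - (r * k + i) / r) = (r - 1) * k + i := by
      intro i hi
      have h3 : (r * k + i) / r = k := by
        rw [Nat.add_comm, Nat.add_mul_div_left _ _ hr, Nat.div_eq_of_lt (mem_range.mp hi), zero_add]
      rw [h3]
      have h4 : r * k = (r - 1) * k + k := by
        obtain ⟨s, rfl⟩ := Nat.exists_eq_add_of_le' hr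
        rw [Nat.add_sub_cancel]; ring
      omega
    rw [h1, ih, sum_congr rfl h2, sum_add_distrib, sum_const, card_range, smul_eq_mul]
    have h5 : ∑ i ∈ range r, i = r.choose 2 := by
      rw [sum_range_id, Nat.choose_two_right]
    have h6 : r * ((r - 1) * k) = 2 * r.choose 2 * k := by
      have h7 : r.choose 2 * 2 = r * (r - 1) := by
        rw [Nat.choose_two_right]
        exact Nat.div_mul_cancel (Nat.even_mul_pred_self r).two_dvd
      rw [← mul_assoc, ← h7]; ring
    rw [h5, h6]
    ring

/-- The closed form of `H`. -/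
theorem H_closed {q : ℕ} (hq : 2 ≤ q) (k j : ℕ) :
    H q k ((q - 1) * k + j) = tn q j + (q - 2) * k * j + (q - 1).choose 2 * k ^ 2 := by
  induction j with
  | zero =>
    rw [Nat.add_zero, H_small le_rfl, tn_mul (by omega)]
    simp [tn]
  | succ j ih =>
    rw [← Nat.add_assoc, H_succ, ih, tn_succ]
    have h1 : inc q k ((q - 1) * k + j) = (q - 2) * k + (j - j / q) := by
      unfold inc
      rw [if_neg (by omega), Nat.add_sub_cancel_left]
      have h2 : (q - 1) * k = (q - 2) * k + k := by
        obtain ⟨s, rfl⟩ := Nat.exists_eq_add_of_le' hq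
        have h3 : s + 2 - 1 = s + 1 := by omega
        rw [h3, Nat.add_sub_cancel]; ring
      have h4 : j / q ≤ j := Nat.div_le_self j q
      omega
    rw [h1]
    ring

/-- If `n - (q - 1) k < q` then `H` is a Turan number. -/
theorem H_short {q : ℕ} (hq : 2 ≤ q) {k j : ℕ} (hj : j < q) :
    H q k ((q - 1) * k + j) = tn (q - 1) ((q - 1) * k + j) := by
  unfold H tn
  refine sum_congr rfl fun i hi => ?_
  unfold inc
  split_ifs with h
  · rfl
  · rw [not_lt] at h
    obtain ⟨l, rfl⟩ := Nat.exists_eq_add_of_le h
    have hl : l < j := by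
      have := mem_range.mp hi
      omega
    have h1 : ((q - 1) * k + l) / (q - 1) = k := by
      rw [Nat.add_comm, Nat.add_mul_div_left _ _ (by omega), Nat.div_eq_of_lt (by omega), zero_add]
    rw [h1, Nat.add_sub_cancel_left, Nat.div_eq_of_lt (by omega)]
    omega

end Pool.Agent.H30T
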