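import Pool.Agent.Lib.H30T.Upper
import Pool.Agent.Lib.H30T.Lower

/-!
# Uniqueness of the extremal graphs at the corners
-/

namespace Pool.Agent.H30T

open Finset SimpleGraph

variable {V : Type} {q : ℕ} [Fintype V] [DecidableEq V] {G : SimpleGraph V}

/-- The vertices of `T` not adjacent to `u`. -/
def pp (G : SimpleGraph V) [DecidableRel G.Adj] (T : Finset V) (u : V) : Finset V := {t ∈ T | ¬ G.Adj u t}

variable [DecidableRel G.Adj]

theorem pp_card {T : Finset V} (hT : G.IsNClique q T) (u : V) : #(pp G T u) + nb G T u = q := by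
  unfold pp nb
  rw [add_comm, card_filter_add_card_filter_not, hT.card_eq]

theorem pp_nonempty {T : Finset V} (hT : G.IsNClique q T) (C : G.Coloring (Fin q)) (u : V) :
    ∃ t ∈ pp G T u, C t = C u := by
  obtain ⟨t, ht, htc⟩ := clique_surj hT C (C u)
  refine ⟨t, ?_, htc⟩
  unfold pp
  rw [mem_filter]
  refine ⟨ht, fun h => C.valid h htc.symm⟩

theorem pp_self {T : Finset V} (hT : G.IsNClique q T) {u t : V} (hu : u ∈ T) (ht : t ∈ pp G T u) : t = u := by
  unfold pp at ht
  rw [mem_filter] at ht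
  by_contra hne
  exact ht.2 (hT.isClique hu ht.1 (fun h => hne h.symm))

/-- The code of a colouring. -/
noncomputable def code {T : Finset V} (hT : G.IsNClique q T) (C : G.Coloring (Fin q)) :
    (T ↪ Fin q) × (∀ u : V, {t // t ∈ pp G T u}) :=
  ⟨⟨fun t => C t.1, fun x y hxy => by
    by_contra hne
    exact C.valid (hT.isClique x.2 y.2 (fun h => hne (Subtype.ext h))) hxy⟩,
   fun u => ⟨(pp_nonempty hT C u).choose, (pp_nonempty hT C u).choose_spec.1⟩⟩

theorem code_spec {T : Finset V} (hT : G.IsNClique q T) (C : G.Coloring (Fin q)) (u : V)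
    (h : ((code hT C).2 u).1 ∈ T) : (code hT C).1 ⟨((code hT C).2 u).1, h⟩ = C u :=
  (pp_nonempty hT C u).choose_spec.2

theorem pp_sub (T : Finset V) (u : V) : pp G T u ⊆ T := filter_subset _ _

theorem code_spec' {T : Finset V} (hT : G.IsNClique q T) (C : G.Coloring (Fin q)) (u : V) :
    (code hT C).1 ⟨((code hT C).2 u).1, pp_sub T u ((code hT C).2 u).2⟩ = C u :=
  code_spec hT C u _

theorem code_inj {T : Finset V} (hT : G.IsNClique q T) : Function.Injective (code (G := G) hT) := by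
  intro C C' h
  ext u
  rw [← code_spec' hT C u, ← code_spec' hT C' u, h]

theorem code_card {T : Finset V} (hT : G.IsNClique q T) :
    Nat.card ((T ↪ Fin q) × (∀ u : V, {t // t ∈ pp G T u})) = q.factorial * ∏ u, #(pp G T u) := by
  rw [Nat.card_eq_fintype_card, Fintype.card_prod, Fintype.card_embedding_eq, Fintype.card_fin,
    Fintype.card_coe, hT.card_eq, Nat.descFactorial_self, Fintype.card_pi]
  congr 1
  refine prod_congr rfl fun u _ => ?_
  rw [Fintype.card_coe]

theorem pow_le_aux (x : ℕ) (hx : 1 ≤ x) : x ≤ 2 ^ (x - 1) := by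
  obtain ⟨y, rfl⟩ := Nat.exists_eq_add_of_le' hx
  rw [Nat.add_sub_cancel]
  exact Nat.lt_two_pow_self

theorem pow_eq_aux (x : ℕ) (hx : 1 ≤ x) (h : x = 2 ^ (x - 1)) : x = 1 ∨ x = 2 := by
  obtain ⟨y, rfl⟩ := Nat.exists_eq_add_of_le' hx
  rw [Nat.add_sub_cancel] at h
  rcases y with _ | _ | y
  · left; rfl
  · right; rfl
  · exfalso
    have h1 : y + 1 ≤ 2 ^ y := Nat.lt_two_pow_self
    have h2 : 2 ^ (y + 1 + 1) = 4 * 2 ^ y := by ring
    omega

/-- The structure of the graphs with many colourings. -/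
theorem structure_one {T : Finset V} {k : ℕ} (hT : G.IsNClique q T) (C₀ : G.Coloring (Fin q))
    (hP : q.factorial * 2 ^ k ≤ Nat.card (G.Coloring (Fin q)))
    (hD : ∑ u, (#(pp G T u) - 1) ≤ k) :
    (∀ u, #(pp G T u) = 1 ∨ #(pp G T u) = 2) ∧ ∑ u, (#(pp G T u) - 1) = k ∧
      ∀ u u', G.Adj u u' → Disjoint (pp G T u) (pp G T u') := by
  classical
  have h1 : ∀ u, 1 ≤ #(pp G T u) := by
    intro u
    obtain ⟨t, ht, _⟩ := pp_nonempty hT C₀ u
    exact card_pos.mpr ⟨t, ht⟩
  have h2 := Nat.card_le_card_of_injective _ (code_inj (G := G) hT)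
  rw [code_card hT] at h2
  have h3 : ∏ u, #(pp G T u) ≤ 2 ^ ∑ u, (#(pp G T u) - 1) := by
    rw [← prod_pow_eq_pow_sum]
    exact prod_le_prod' fun u _ => pow_le_aux _ (h1 u)
  have h4 : 2 ^ ∑ u, (#(pp G T u) - 1) ≤ 2 ^ k := Nat.pow_le_pow_right (by norm_num) hD
  have h5 : 2 ^ k ≤ ∏ u, #(pp G T u) :=
    Nat.le_of_mul_le_mul_left (hP.trans h2) (Nat.factorial_pos q)
  have h6 : ∑ u, (#(pp G T u) - 1) = k := by
    have : 2 ^ k ≤ 2 ^ ∑ u, (#(pp G T u) - 1) := h5.trans h3
    have := (Nat.pow_le_pow_iff_right (by norm_num : 1 < 2)).mp this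
    omega
  have h7 : ∀ u, #(pp G T u) = 2 ^ (#(pp G T u) - 1) := by
    by_contra hcon
    simp only [not_forall] at hcon
    obtain ⟨u, hu⟩ := hcon
    have h8 : ∏ u, #(pp G T u) < ∏ u, 2 ^ (#(pp G T u) - 1) := by
      refine prod_lt_prod (fun v _ => by have := h1 v; omega) (fun v _ => pow_le_aux _ (h1 v)) ⟨u, mem_univ u, ?_⟩
      exact lt_of_le_of_ne (pow_le_aux _ (h1 u)) hu
    rw [prod_pow_eq_pow_sum] at h8
    omega
  refine ⟨fun u => pow_eq_aux _ (h1 u) (h7 u), h6, ?_⟩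
  intro u u' hadj
  rw [Finset.disjoint_left]
  intro t ht ht'
  -- surjectivity of the code
  have hsurj : Function.Surjective (code (G := G) hT) := by
    have hc : Nat.card (G.Coloring (Fin q)) = Nat.card ((T ↪ Fin q) × (∀ u : V, {t // t ∈ pp G T u})) := by
      refine le_antisymm (Nat.card_le_card_of_injective _ (code_inj (G := G) hT)) ?_
      rw [code_card hT]
      refine le_trans ?_ hP
      exact Nat.mul_le_mul_left _ (h3.trans h4)
    exact (Nat.bijective_iff_injective_and_card _).mpr ⟨code_inj (G := G) hT, hc⟩ |>.2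
  let τ : ∀ w : V, {t // t ∈ pp G T w} := fun w =>
    if h : t ∈ pp G T w then ⟨t, h⟩ else (code hT C₀).2 w
  obtain ⟨C, hC⟩ := hsurj ⟨(code hT C₀).1, τ⟩
  have hu : ((code hT C).2 u).1 = t := by
    rw [hC]
    simp only [τ, dif_pos ht]
  have hu' : ((code hT C).2 u').1 = t := by
    rw [hC]
    simp only [τ, dif_pos ht']
  have e1 := code_spec' hT C u
  have e2 := code_spec' hT C u'
  refine C.valid hadj ?_
  rw [← e1, ← e2]
  congr 1
  exact Subtype.ext (hu.trans hu'.symm)

end Pool.Agent.H30T
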