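import Pool.Agent.Lib.H30T.Unique

/-!
# Uniqueness of the extremal graphs at the corners: counting
-/

namespace Pool.Agent.H30T

open Finset SimpleGraph

variable {V : Type} {q : ℕ} [Fintype V] [DecidableEq V] {G : SimpleGraph V} [DecidableRel G.Adj]

theorem sum_card_pp (T : Finset V) : ∑ t ∈ T, #{u | t ∈ pp G T u} = ∑ u, #(pp G T u) := by
  have h1 : ∀ t ∈ T, #{u | t ∈ pp G T u} = ∑ u, if t ∈ pp G T u then 1 else 0 := fun t _ => card_filter _ _
  rw [sum_congr rfl h1, sum_comm]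
  refine sum_congr rfl fun u _ => ?_
  rw [← card_filter]
  congr 1
  ext t
  rw [mem_filter]
  exact ⟨fun h => h.2, fun h => ⟨pp_sub T u h, h⟩⟩

theorem sum_sq_pp (T : Finset V) : ∑ t ∈ T, #{u | t ∈ pp G T u} ^ 2 = ∑ u, ∑ u', #(pp G T u ∩ pp G T u') := by
  have h1 : ∀ t ∈ T, #{u | t ∈ pp G T u} ^ 2 = ∑ u, ∑ u', if t ∈ pp G T u ∩ pp G T u' then 1 else 0 := by
    intro t _
    rw [sq, card_filter, sum_mul_sum]
    refine sum_congr rfl fun u _ => sum_congr rfl fun u' _ => ?_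
    by_cases h : t ∈ pp G T u <;> by_cases h' : t ∈ pp G T u' <;> simp [h, h']
  rw [sum_congr rfl h1, sum_comm]
  refine sum_congr rfl fun u _ => ?_
  rw [sum_comm]
  refine sum_congr rfl fun u' _ => ?_
  rw [← card_filter]
  congr 1
  ext t
  rw [mem_filter]
  exact ⟨fun h => h.2, fun h => ⟨pp_sub T u (mem_inter.mp h).1, h⟩⟩

theorem inter_aux {A B : Finset V} (hA : #A = 1 ∨ #A = 2) (hB : #B = 1 ∨ #B = 2) :
    #(A ∩ B) = (if Disjoint A B then 0 else 1) + (if #A = 2 ∧ A = B then 1 else 0) := by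
  by_cases h : Disjoint A B
  · rw [if_pos h, disjoint_iff_inter_eq_empty.mp h]
    rw [if_neg]
    · rfl
    · rintro ⟨h1, rfl⟩
      rw [Finset.disjoint_self_iff_empty] at h
      rw [h] at h1
      simp at h1
  · rw [if_neg h]
    have h1 : 1 ≤ #(A ∩ B) := by
      rw [disjoint_iff_inter_eq_empty, ← card_eq_zero] at h
      omega
    have h2 : #(A ∩ B) ≤ #A := card_le_card inter_subset_left
    have h3 : #(A ∩ B) ≤ #B := card_le_card inter_subset_right
    by_cases h4 : #A = 2 ∧ A = B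
    · rw [if_pos h4, ← h4.2, inter_self, h4.1]
    · rw [if_neg h4]
      by_contra hne
      have h5 : #(A ∩ B) = 2 := by omega
      have h6 : #A = 2 := by omega
      have h7 : #B = 2 := by omega
      have h8 : A ∩ B = A := eq_of_subset_of_card_le inter_subset_left (by omega)
      have h9 : A ∩ B = B := eq_of_subset_of_card_le inter_subset_right (by omega)
      exact h4 ⟨h6, h8.symm.trans h9⟩

theorem structure_two {T : Finset V} {s k : ℕ} (hT : G.IsNClique q T)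
    (h1 : ∀ u, #(pp G T u) = 1 ∨ #(pp G T u) = 2) (h2 : ∑ u, (#(pp G T u) - 1) = k)
    (h3 : ∀ u u', G.Adj u u' → Disjoint (pp G T u) (pp G T u'))
    (hn : Fintype.card V + k = q * (s + k))
    (hE : 2 * #G.edgeFinset + q * (s + k) ^ 2 = Fintype.card V ^ 2 + k ^ 2) :
    (∀ u u', G.Adj u u' ↔ Disjoint (pp G T u) (pp G T u')) ∧
      (∀ u u', #(pp G T u) = 2 → #(pp G T u') = 2 → pp G T u = pp G T u') ∧
      (∀ t ∈ T, #{u | t ∈ pp G T u} = s + k) ∧ #{u | #(pp G T u) = 2} = k := by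
  -- the number of flexible vertices
  have hF : #{u | #(pp G T u) = 2} = k := by
    rw [← h2, card_filter]
    refine sum_congr rfl fun u _ => ?_
    rcases h1 u with h | h <;> simp [h]
  -- the total size
  have hsum : ∑ t ∈ T, #{u | t ∈ pp G T u} = q * (s + k) := by
    rw [sum_card_pp, ← hn, ← h2, ← card_univ, card_eq_sum_ones, ← sum_add_distrib]
    refine sum_congr rfl fun u _ => ?_
    rcases h1 u with h | h <;> simp [h]
  -- the variance
  have hZ : ∑ t ∈ T, ((#{u | t ∈ pp G T u} : ℤ) - (s + k)) ^ 2 + q * (s + k) ^ 2 = ∑ t ∈ T, (#{u | t ∈ pp G T u} : ℤ) ^ 2 := by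
    have e1 : ∀ t ∈ T, ((#{u | t ∈ pp G T u} : ℤ) - (s + k)) ^ 2 =
        (#{u | t ∈ pp G T u} : ℤ) ^ 2 - 2 * (s + k) * (#{u | t ∈ pp G T u} : ℤ) + (s + k) ^ 2 := by
      intro t _
      ring
    rw [sum_congr rfl e1, sum_add_distrib, sum_sub_distrib, ← mul_sum, sum_const, hT.card_eq]
    have e2 : ∑ t ∈ T, (#{u | t ∈ pp G T u} : ℤ) = q * (s + k) := by exact_mod_cast hsum
    rw [e2]
    simp only [nsmul_eq_mul]
    ring
  -- the pairs
  have hW : ∑ t ∈ T, #{u | t ∈ pp G T u} ^ 2 =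
      (∑ u, ∑ u', if Disjoint (pp G T u) (pp G T u') then 0 else 1) +
      (∑ u, ∑ u', if #(pp G T u) = 2 ∧ pp G T u = pp G T u' then 1 else 0) := by
    rw [sum_sq_pp, ← sum_add_distrib]
    refine sum_congr rfl fun u _ => ?_
    rw [← sum_add_distrib]
    exact sum_congr rfl fun u' _ => inter_aux (h1 u) (h1 u')
  -- the edges
  have hadj : 2 * #G.edgeFinset = ∑ u, ∑ u', if G.Adj u u' then 1 else 0 := by
    rw [two_mul_card_edgeFinset, card_filter, ← univ_product_univ, sum_product]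
  have hsl : (∑ u, ∑ u', if G.Adj u u' then 1 else 0) + (∑ u, ∑ u', if Disjoint (pp G T u) (pp G T u') then 0 else 1) +
      (∑ u, ∑ u', if ¬ G.Adj u u' ∧ Disjoint (pp G T u) (pp G T u') then 1 else 0) = Fintype.card V ^ 2 := by
    rw [← sum_add_distrib, ← sum_add_distrib]
    have e1 : ∀ u ∈ (univ : Finset V), ((∑ u', if G.Adj u u' then 1 else 0) + (∑ u', if Disjoint (pp G T u) (pp G T u') then 0 else 1)) +
        (∑ u', if ¬ G.Adj u u' ∧ Disjoint (pp G T u) (pp G T u') then 1 else 0) = Fintype.card V := by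
      intro u _
      rw [← sum_add_distrib, ← sum_add_distrib, ← card_univ, card_eq_sum_ones]
      refine sum_congr rfl fun u' _ => ?_
      by_cases h : G.Adj u u'
      · have h' := h3 u u' h
        simp [h, h']
      · by_cases h' : Disjoint (pp G T u) (pp G T u') <;> simp [h, h']
    rw [sum_congr rfl e1, sum_const, card_univ, smul_eq_mul, sq]
  have hkk : (∑ u, ∑ u', if #(pp G T u) = 2 ∧ pp G T u = pp G T u' then 1 else 0) +
      (∑ u, ∑ u', if #(pp G T u) = 2 ∧ #(pp G T u') = 2 ∧ pp G T u ≠ pp G T u' then 1 else 0) = k ^ 2 := by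
    have e1 : k ^ 2 = ∑ u, ∑ u', if #(pp G T u) = 2 ∧ #(pp G T u') = 2 then 1 else 0 := by
      rw [sq]
      nth_rewrite 1 [← hF]
      nth_rewrite 1 [← hF]
      rw [card_filter, sum_mul_sum]
      refine sum_congr rfl fun u _ => sum_congr rfl fun u' _ => ?_
      by_cases h : #(pp G T u) = 2 <;> by_cases h' : #(pp G T u') = 2 <;> simp [h, h']
    rw [e1, ← sum_add_distrib]
    refine sum_congr rfl fun u _ => ?_
    rw [← sum_add_distrib]
    refine sum_congr rfl fun u' _ => ?_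
    by_cases h : #(pp G T u) = 2
    · by_cases h' : pp G T u = pp G T u'
      · have h'' : #(pp G T u') = 2 := by rw [← h']; exact h
        simp [h, h', h'']
      · by_cases h'' : #(pp G T u') = 2 <;> simp [h, h', h'']
    · simp [h]
  have hZ0 : 0 ≤ ∑ t ∈ T, ((#{u | t ∈ pp G T u} : ℤ) - (s + k)) ^ 2 := sum_nonneg fun t _ => sq_nonneg _
  have hW' : ∑ t ∈ T, (#{u | t ∈ pp G T u} : ℤ) ^ 2 =
      ((∑ u, ∑ u', if Disjoint (pp G T u) (pp G T u') then 0 else 1 : ℕ) : ℤ) +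
      ((∑ u, ∑ u', if #(pp G T u) = 2 ∧ pp G T u = pp G T u' then 1 else 0 : ℕ) : ℤ) := by exact_mod_cast hW
  rw [hadj] at hE
  generalize (∑ u, ∑ u', if G.Adj u u' then 1 else 0) = x1 at hE hsl
  obtain ⟨x2, hx2⟩ : ∃ x2, x2 = (∑ u, ∑ u', if Disjoint (pp G T u) (pp G T u') then 0 else 1) := ⟨_, rfl⟩
  obtain ⟨x3, hx3⟩ : ∃ x3, x3 = (∑ u, ∑ u', if ¬ G.Adj u u' ∧ Disjoint (pp G T u) (pp G T u') then 1 else 0) := ⟨_, rfl⟩
  obtain ⟨x4, hx4⟩ : ∃ x4, x4 = (∑ u, ∑ u', if #(pp G T u) = 2 ∧ pp G T u = pp G T u' then 1 else 0) := ⟨_, rfl⟩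
  obtain ⟨x5, hx5⟩ : ∃ x5, x5 = (∑ u, ∑ u', if #(pp G T u) = 2 ∧ #(pp G T u') = 2 ∧ pp G T u ≠ pp G T u' then 1 else 0) := ⟨_, rfl⟩
  obtain ⟨z, hz⟩ : ∃ z, z = ∑ t ∈ T, ((#{u | t ∈ pp G T u} : ℤ) - (s + k)) ^ 2 := ⟨_, rfl⟩
  rw [← hx2, ← hx3] at hsl
  rw [← hx2, ← hx4] at hW'
  rw [← hx4, ← hx5] at hkk
  rw [← hz] at hZ hZ0
  rw [hW'] at hZ
  zify at hE hsl hkk
  have hfin : z = 0 ∧ x3 = 0 ∧ x5 = 0 := by
    have : z + (x3 : ℤ) + (x5 : ℤ) = 0 := by linarith
    omega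
  obtain ⟨hz0, hx30, hx50⟩ := hfin
  refine ⟨?_, ?_, ?_, hF⟩
  · intro u u'
    refine ⟨h3 u u', fun h => ?_⟩
    by_contra hna
    rw [hx3, sum_eq_zero_iff] at hx30
    have e1 := hx30 u (mem_univ u)
    rw [sum_eq_zero_iff] at e1
    have e2 := e1 u' (mem_univ u')
    rw [if_pos ⟨hna, h⟩] at e2
    omega
  · intro u u' hu hu'
    by_contra hne
    rw [hx5, sum_eq_zero_iff] at hx50
    have e1 := hx50 u (mem_univ u)
    rw [sum_eq_zero_iff] at e1
    have e2 := e1 u' (mem_univ u')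
    rw [if_pos ⟨hu, hu', hne⟩] at e2
    omega
  · intro t ht
    rw [hz] at hz0
    have e1 := (sum_eq_zero_iff_of_nonneg (fun t _ => sq_nonneg _)).mp hz0 t ht
    have e2 := pow_eq_zero_iff (two_ne_zero) |>.mp e1
    have e3 : (#{u | t ∈ pp G T u} : ℤ) = ((s + k : ℕ) : ℤ) := by
      push_cast
      linarith
    exact_mod_cast e3

end Pool.Agent.H30T
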