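import Pool.Agent.Lib.H30T.Unique2

/-!
# Uniqueness of the extremal graphs at the corners: the isomorphism
-/

namespace Pool.Agent.H30T

open Finset SimpleGraph

/-- A bijection with prescribed types. -/
theorem exists_equiv_types {α β γ : Type} [Fintype α] [Fintype β] [DecidableEq γ] (f : α → γ) (g : β → γ)
    (h : ∀ c, #{a | f a = c} = #{b | g b = c}) : ∃ e : α ≃ β, ∀ a, g (e a) = f a := by
  have h1 : ∀ c, Nonempty ({a // f a = c} ≃ {b // g b = c}) := by
    intro c
    refine ⟨Fintype.equivOfCardEq ?_⟩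
    rw [Fintype.card_subtype, Fintype.card_subtype, h c]
  exact ⟨Equiv.ofFiberEquiv fun c => (h1 c).some, fun a => Equiv.ofFiberEquiv_map _ a⟩

/-- The first two colours. -/
def low (p : ℕ) : Finset (Fin (p + 2)) := {c | (c : ℕ) < 2}

theorem low_card' (p : ℕ) : #(low p) = 2 := by
  have h : low p = {⟨0, by omega⟩, ⟨1, by omega⟩} := by
    ext c
    unfold low
    simp only [mem_filter, mem_univ, true_and, mem_insert, mem_singleton, Fin.ext_iff]
    omega
  rw [h, card_pair]
  simp

theorem exists_enum {V : Type} [DecidableEq V] {p : ℕ} {T B : Finset V} (hT : #T = p + 2) (hB : B ⊆ T) (hB2 : #B = 2) :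
    ∃ e : T ≃ Fin (p + 2), ∀ t : T, e t ∈ low p ↔ t.1 ∈ B := by
  have h0 : #{t : T | t.1 ∈ B} = 2 := by
    rw [← hB2, ← card_map (Function.Embedding.subtype _)]
    congr 1
    ext x
    simp only [mem_map, mem_filter, mem_univ, true_and, Function.Embedding.subtype_apply, Subtype.exists, exists_and_left,
      exists_prop, exists_eq_right_right, and_iff_left_iff_imp]
    exact fun h => hB h
  obtain ⟨e, he⟩ := exists_equiv_types (fun t : T => decide (t.1 ∈ B)) (fun c : Fin (p + 2) => decide (c ∈ low p)) (by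
    intro c
    cases c
    · simp only [decide_eq_false_iff_not]
      have h1 := card_filter_add_card_filter_not (s := (univ : Finset T)) (fun t : T => t.1 ∈ B)
      have h2 := card_filter_add_card_filter_not (s := (univ : Finset (Fin (p + 2)))) (fun c => c ∈ low p)
      have h3 : #(univ.filter fun c : Fin (p + 2) => c ∈ low p) = 2 := by
        rw [filter_univ_mem, low_card']
      rw [h0, card_univ, Fintype.card_coe, hT] at h1
      rw [h3, card_univ, Fintype.card_fin] at h2
      omega
    · simp only [decide_eq_true_eq]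
      rw [h0, filter_univ_mem, low_card'])
  refine ⟨e, fun t => ?_⟩
  have := he t
  simpa using this

/-- The types of the vertices of an extremal graph. -/
structure Types {V : Type} [Fintype V] (p s k : ℕ) (G : SimpleGraph V) (Q : V → Finset (Fin (p + 2))) : Prop where
  adj : ∀ u u', G.Adj u u' ↔ Disjoint (Q u) (Q u')
  one : ∀ u, #(Q u) = 1 ∨ Q u = low p
  cls : ∀ c, #{u | c ∈ Q u} = s + k
  flex : #{u | Q u = low p} = k

theorem Types.fibre {V : Type} [Fintype V] {p s k : ℕ} {G : SimpleGraph V} {Q : V → Finset (Fin (p + 2))}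
    (h : Types p s k G Q) (A : Finset (Fin (p + 2))) :
    #{u | Q u = A} = if A = low p then k else if #A = 1 then (if A ⊆ low p then s else s + k) else 0 := by
  classical
  by_cases h1 : A = low p
  · rw [if_pos h1, h1, h.flex]
  · rw [if_neg h1]
    by_cases h2 : #A = 1
    · rw [if_pos h2]
      obtain ⟨c, rfl⟩ := card_eq_one.mp h2
      have h3 := h.cls c
      by_cases h4 : c ∈ low p
      · rw [if_pos (singleton_subset_iff.mpr h4)]
        have h5 : ({u | c ∈ Q u} : Finset V) = ({u | Q u = {c}} : Finset V) ∪ ({u | Q u = low p} : Finset V) := by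
          ext u
          simp only [mem_filter, mem_univ, true_and, mem_union]
          constructor
          · intro hc
            rcases h.one u with h6 | h6
            · obtain ⟨d, hd⟩ := card_eq_one.mp h6
              rw [hd, mem_singleton] at hc
              left; rw [hd, hc]
            · right; exact h6
          · rintro (h6 | h6)
            · rw [h6]; exact mem_singleton_self c
            · rw [h6]; exact h4
        rw [h5, card_union_of_disjoint, h.flex] at h3
        · omega
        · rw [Finset.disjoint_left]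
          intro u hu hu'
          rw [mem_filter] at hu hu'
          exact h1 (hu.2.symm.trans hu'.2)
      · rw [if_neg (fun h6 => h4 (singleton_subset_iff.mp h6)), ← h3]
        congr 1
        ext u
        simp only [mem_filter, mem_univ, true_and]
        constructor
        · intro h6
          rw [h6]; exact mem_singleton_self c
        · intro hc
          rcases h.one u with h6 | h6
          · obtain ⟨d, hd⟩ := card_eq_one.mp h6
            rw [hd, mem_singleton] at hc
            rw [hd, hc]
          · rw [h6] at hc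
            exact absurd hc h4
    · rw [if_neg h2, card_eq_zero]
      ext u
      simp only [mem_filter, mem_univ, true_and, notMem_empty, iff_false]
      intro h3
      rcases h.one u with h6 | h6
      · rw [h3] at h6; exact h2 h6
      · exact h1 (h3.symm.trans h6)

theorem Types.iso {V V' : Type} [Fintype V] [Fintype V'] {p s k : ℕ} {G : SimpleGraph V} {G' : SimpleGraph V'}
    {Q : V → Finset (Fin (p + 2))} {Q' : V' → Finset (Fin (p + 2))} (h : Types p s k G Q) (h' : Types p s k G' Q') :
    Nonempty (G ≃g G') := by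
  obtain ⟨e, he⟩ := exists_equiv_types Q Q' (fun A => by rw [h.fibre A, h'.fibre A])
  refine ⟨⟨e, ?_⟩⟩
  intro u u'
  rw [h'.adj, he, he, ← h.adj]

variable {V : Type} [Fintype V] [DecidableEq V] {G : SimpleGraph V} [DecidableRel G.Adj]

theorem exists_types {p s k : ℕ} {T : Finset V} (hT : G.IsNClique (p + 2) T)
    (h1 : ∀ u, #(pp G T u) = 1 ∨ #(pp G T u) = 2)
    (h2 : ∀ u u', G.Adj u u' ↔ Disjoint (pp G T u) (pp G T u'))
    (h3 : ∀ u u', #(pp G T u) = 2 → #(pp G T u') = 2 → pp G T u = pp G T u')
    (h4 : ∀ t ∈ T, #{u | t ∈ pp G T u} = s + k) (h5 : #{u | #(pp G T u) = 2} = k) :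
    ∃ Q, Types p s k G Q := by
  obtain ⟨B, hB, hB2, hBu⟩ : ∃ B ⊆ T, #B = 2 ∧ ∀ u, #(pp G T u) = 2 → pp G T u = B := by
    by_cases h : ∃ u, #(pp G T u) = 2
    · obtain ⟨u, hu⟩ := h
      exact ⟨pp G T u, pp_sub T u, hu, fun u' hu' => h3 u' u hu' hu⟩
    · obtain ⟨B, hB, hB2⟩ := exists_subset_card_eq (s := T) (n := 2) (by rw [hT.card_eq]; omega)
      exact ⟨B, hB, hB2, fun u hu => absurd ⟨u, hu⟩ h⟩
  obtain ⟨e, he⟩ := exists_enum hT.card_eq hB hB2
  have hmem : ∀ u c, c ∈ (univ.filter fun c => (e.symm c).1 ∈ pp G T u) ↔ (e.symm c).1 ∈ pp G T u := by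
    intro u c
    simp
  have hcard : ∀ u, #(univ.filter fun c => (e.symm c).1 ∈ pp G T u) = #(pp G T u) := by
    intro u
    refine card_bij (fun c _ => (e.symm c).1) (fun c hc => (hmem u c).mp hc) ?_ ?_
    · intro c _ d _ hcd
      exact e.symm.injective (Subtype.ext hcd)
    · intro t ht
      refine ⟨e ⟨t, pp_sub T u ht⟩, ?_, ?_⟩
      · rw [hmem, e.symm_apply_apply]
        exact ht
      · rw [e.symm_apply_apply]
  have hlow : ∀ u, #(pp G T u) = 2 → (univ.filter fun c => (e.symm c).1 ∈ pp G T u) = low p := by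
    intro u hu
    ext c
    rw [hmem, hBu u hu, ← he, e.apply_symm_apply]
  have hlow' : ∀ u, (univ.filter fun c => (e.symm c).1 ∈ pp G T u) = low p → #(pp G T u) = 2 := by
    intro u hu
    rw [← hcard u, hu, low_card']
  refine ⟨fun u => univ.filter fun c => (e.symm c).1 ∈ pp G T u, ?_, ?_, ?_, ?_⟩
  · intro u u'
    rw [h2, Finset.disjoint_left, Finset.disjoint_left]
    constructor
    · intro h c hc hc'
      exact h ((hmem u c).mp hc) ((hmem u' c).mp hc')
    · intro h t ht ht'
      refine h (a := e ⟨t, pp_sub T u ht⟩) ?_ ?_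
      · rw [hmem, e.symm_apply_apply]; exact ht
      · rw [hmem, e.symm_apply_apply]; exact ht'
  · intro u
    rcases h1 u with h | h
    · left; rw [hcard, h]
    · right; exact hlow u h
  · intro c
    rw [← h4 (e.symm c).1 (e.symm c).2]
    congr 1
    ext u
    simp
  · rw [← h5]
    congr 1
    ext u
    simp only [mem_filter, mem_univ, true_and]
    exact ⟨hlow' u, hlow u⟩

/-- The numbers of edges at the corners. -/
theorem H_corner (p s k : ℕ) : 2 * H (p + 2) k ((p + 1) * k + (p + 2) * s) + (p + 2) * (s + k) ^ 2 =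
    ((p + 1) * k + (p + 2) * s) ^ 2 + k ^ 2 := by
  have h1 := H_closed (q := p + 2) (by omega) k ((p + 2) * s)
  have hp1 : p + 2 - 1 = p + 1 := by omega
  have hp2 : p + 2 - 2 = p := by omega
  rw [hp1, hp2, tn_mul (by omega)] at h1
  rw [h1]
  have h7 : (p + 1).choose 2 * 2 = (p + 1) * p := by
    rw [Nat.choose_two_right]
    exact Nat.div_mul_cancel (Nat.even_mul_pred_self (p + 1)).two_dvd
  have h8 : (p + 2).choose 2 * 2 = (p + 2) * (p + 1) := by
    rw [Nat.choose_two_right]
    exact Nat.div_mul_cancel (Nat.even_mul_pred_self (p + 2)).two_dvd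
  have h9 : 2 * ((p + 2).choose 2 * s ^ 2 + p * k * ((p + 2) * s) + (p + 1).choose 2 * k ^ 2) =
      (p + 2).choose 2 * 2 * s ^ 2 + 2 * (p * k * ((p + 2) * s)) + (p + 1).choose 2 * 2 * k ^ 2 := by ring
  rw [h9, h7, h8]
  ring

theorem inc_anti (p k i : ℕ) : inc (p + 2) (k + 1) i ≤ inc (p + 2) k i := by
  have hp1 : p + 2 - 1 = p + 1 := by omega
  have e0 : (p + 1) * (k + 1) = (p + 1) * k + (p + 1) := by ring
  unfold inc
  rw [hp1, e0]
  split_ifs with h1 h2 h2
  · exact le_rfl
  · obtain ⟨j, rfl⟩ := Nat.exists_eq_add_of_le (not_lt.mp h2)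
    rw [Nat.add_sub_cancel_left, Nat.div_eq_of_lt (by omega : j < p + 2), Nat.add_comm ((p + 1) * k) j,
      Nat.add_mul_div_left _ _ (by omega), Nat.div_eq_of_lt (by omega : j < p + 1)]
    omega
  · omega
  · obtain ⟨j, rfl⟩ := Nat.exists_eq_add_of_le (not_lt.mp h1)
    have e1 : (p + 1) * k + (p + 1) + j - (p + 1) * k = j + (p + 1) := by omega
    rw [Nat.add_sub_cancel_left, e1]
    have e2 : (j + (p + 1)) / (p + 2) ≤ j / (p + 2) + 1 := by
      rw [← Nat.add_div_right _ (by omega)]
      exact Nat.div_le_div_right (by omega)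
    omega

theorem H_lt {p k n : ℕ} (h : (p + 1) * k + (p + 2) ≤ n) : H (p + 2) (k + 1) n < H (p + 2) k n := by
  unfold H
  refine sum_lt_sum (fun i _ => inc_anti p k i) ⟨(p + 1) * k + (p + 1), mem_range.mpr (by omega), ?_⟩
  have hp1 : p + 2 - 1 = p + 1 := by omega
  have e0 : (p + 1) * (k + 1) = (p + 1) * k + (p + 1) := by ring
  unfold inc
  rw [hp1, e0, if_neg (by omega), if_neg (by omega), Nat.sub_self, Nat.add_sub_cancel_left,
    Nat.div_eq_of_lt (by omega : p + 1 < p + 2), Nat.zero_div]
  have e1 : (p + 1) * k = p * k + k := by ring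
  omega

/-- The structure of the extremal graphs at the corners. -/
theorem corner_types {p s k : ℕ} (hs : 1 ≤ s) (hV : Fintype.card V = (p + 1) * k + (p + 2) * s)
    (hE : #G.edgeFinset = H (p + 2) k ((p + 1) * k + (p + 2) * s))
    (hP : (p + 2).factorial * 2 ^ k ≤ Nat.card (G.Coloring (Fin (p + 2)))) :
    ∃ Q, Types p s k G Q := by
  have hq : 2 ≤ p + 2 := by omega
  have hp1 : p + 2 - 1 = p + 1 := by omega
  obtain ⟨n, hn⟩ : ∃ n, (p + 1) * k + (p + 2) * s = n + 1 := by
    refine ⟨(p + 1) * k + (p + 2) * s - 1, ?_⟩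
    have : 1 ≤ (p + 2) * s := Nat.le_trans hs (Nat.le_mul_of_pos_left s (by omega))
    omega
  have hpos : 0 < (p + 2).factorial * 2 ^ k := Nat.mul_pos (Nat.factorial_pos _) (by positivity)
  have hlt : (p + 2).factorial * 2 ^ k < 2 * Nat.card (G.Coloring (Fin (p + 2))) := by omega
  obtain ⟨C₀⟩ : Nonempty (G.Coloring (Fin (p + 2))) := by
    by_contra hE
    rw [not_nonempty_iff] at hE
    rw [Nat.card_of_isEmpty] at hP
    omega
  -- the increment
  have hinc : inc (p + 2) k n + k + s = n + 1 := by
    obtain ⟨s', rfl⟩ := Nat.exists_eq_add_of_le' hs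
    have e1 : (p + 2) * (s' + 1) = (p + 2) * s' + (p + 2) := by ring
    rw [e1] at hn
    unfold inc
    rw [hp1, if_neg (by omega)]
    have e2 : n - (p + 1) * k = (p + 1) + (p + 2) * s' := by omega
    rw [e2, Nat.add_mul_div_left _ _ (by omega), Nat.div_eq_of_lt (by omega), Nat.zero_add]
    have e3 : (p + 1) * k = p * k + k := by ring
    have e4 : (p + 2) * s' = (p + 1) * s' + s' := by ring
    omega
  -- the clique
  have hclique : ¬ G.CliqueFree (p + 2) := by
    intro hcf
    have h1 : G.CliqueFree (p + 1 + 1) := hcf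
    have h2 := h1.card_edgeFinset_le
    have h3 := card_edgeFinset_turanGraph (n := Fintype.card V) (r := p + 1)
    have h4 : #G.edgeFinset ≤ tn (p + 1) ((p + 1) * k + (p + 2) * s) := by
      rw [← turan_card (by omega), ← hV, h3]
      exact h2
    have h5 : tn (p + 1) ((p + 1) * k + (p + 2) * s) < H (p + 2) k ((p + 1) * k + (p + 2) * s) := by
      rw [hn, tn_succ, H_succ]
      have h6 := tn_le_H hq k n
      rw [hp1] at h6
      have h7 : n / (p + 1) = k + ((p + 2) * s - 1) / (p + 1) := by
        have e1 : n = ((p + 2) * s - 1) + (p + 1) * k := by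
          have : 1 ≤ (p + 2) * s := Nat.le_trans hs (Nat.le_mul_of_pos_left s (by omega))
          omega
        rw [e1, Nat.add_mul_div_left _ _ (by omega), Nat.add_comm]
      have h8 : s ≤ ((p + 2) * s - 1) / (p + 1) := by
        rw [Nat.le_div_iff_mul_le (by omega)]
        have e1 : (p + 2) * s = s * (p + 1) + s := by ring
        omega
      have h9 : n / (p + 1) ≤ n := Nat.div_le_self _ _
      omega
    omega
  rw [CliqueFree] at hclique
  obtain ⟨T, hT⟩ : ∃ T, G.IsNClique (p + 2) T := by
    by_contra hE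
    exact hclique (fun t ht => hE ⟨t, ht⟩)
  have hdeg : ∀ v ∈ T, inc (p + 2) k n ≤ G.degree v := by
    intro v hv
    have h1 := card_edgeFinset_induce_compl_singleton G v
    have h2 := card_edgeFinset_deleteIncidenceSet G v
    have hcard : Fintype.card ({v}ᶜ : Set V) = n := by
      rw [Fintype.card_compl_set, hV, hn]
      simp
    have h3 := upper hq k n ({v}ᶜ : Set V) (G.induce ({v}ᶜ : Set V)) hcard
      (lt_of_lt_of_le hlt (Nat.mul_le_mul_left 2 (colour_delete hT hv)))
    rw [h1, h2, hE, hn, H_succ] at h3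
    omega
  have hsum : (p + 2) * inc (p + 2) k n ≤ ∑ v ∈ T, G.degree v := by
    have := card_nsmul_le_sum T (fun v => G.degree v) (inc (p + 2) k n) hdeg
    rw [hT.card_eq, smul_eq_mul] at this
    exact this
  have hD : ∑ u, (#(pp G T u) - 1) ≤ k := by
    have h1 : ∑ u, (#(pp G T u) - 1) + ∑ v ∈ T, G.degree v = (p + 1) * Fintype.card V := by
      rw [← sum_nb, ← sum_add_distrib]
      have h2 : ∀ u ∈ (univ : Finset V), #(pp G T u) - 1 + nb G T u = p + 1 := by
        intro u _
        have e1 := pp_card hT u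
        have e2 := nb_le hT C₀ u
        omega
      rw [sum_congr rfl h2, sum_const, card_univ, smul_eq_mul, mul_comm]
    rw [hV, hn] at h1
    have h3 : (p + 2) * (inc (p + 2) k n + k + s) = (p + 2) * (n + 1) := by rw [hinc]
    nlinarith
  obtain ⟨g1, g2, g3⟩ := structure_one hT C₀ hP hD
  obtain ⟨g4, g5, g6, g7⟩ := structure_two (s := s) hT g1 g2 g3 (by rw [hV]; ring) (by
    rw [hE, hV]
    exact H_corner p s k)
  exact exists_types hT g1 g4 g5 g6 g7

end Pool.Agent.H30T
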