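import Pool.Agent.Lib.H30T.Num

/-!
# The upper bound

A graph with more than `q! 2^(k-1)` proper `q`-colourings has at most `H q k n` edges.
-/

namespace Pool.Agent.H30T

open Finset SimpleGraph

variable {V : Type} {q : ℕ}

/-- A colouring takes all colours on a `q`-clique. -/
theorem clique_surj [DecidableEq V] {G : SimpleGraph V} {T : Finset V} (hT : G.IsNClique q T) (C : G.Coloring (Fin q)) (c : Fin q) :
    ∃ t ∈ T, C t = c := by
  have hinj : Set.InjOn C T := by
    intro x hx y hy hxy
    by_contra hne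
    exact C.valid (hT.isClique hx hy hne) hxy
  have h1 : (T.image C).card = Fintype.card (Fin q) := by
    rw [card_image_of_injOn hinj, hT.card_eq, Fintype.card_fin]
  have h2 : T.image C = univ := (card_eq_iff_eq_univ _).mp h1
  have h3 : c ∈ T.image C := by rw [h2]; exact mem_univ c
  obtain ⟨t, ht, htc⟩ := mem_image.mp h3
  exact ⟨t, ht, htc⟩

variable [Fintype V] [DecidableEq V] {G : SimpleGraph V}

/-- Deleting a vertex of a `q`-clique does not decrease the number of colourings. -/
theorem colour_delete {T : Finset V} (hT : G.IsNClique q T) {v : V} (hv : v ∈ T) :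
    Nat.card (G.Coloring (Fin q)) ≤ Nat.card ((G.induce ({v}ᶜ : Set V)).Coloring (Fin q)) := by
  let F : G.Coloring (Fin q) → (G.induce ({v}ᶜ : Set V)).Coloring (Fin q) := fun C =>
    SimpleGraph.Coloring.mk (fun x => C x.1) (fun {x y} h => C.valid h)
  refine Nat.card_le_card_of_injective F ?_
  intro C C' h
  have h1 : ∀ x, x ≠ v → C x = C' x := by
    intro x hx
    have h2 := congrArg (fun D : (G.induce ({v}ᶜ : Set V)).Coloring (Fin q) => D ⟨x, hx⟩) h
    exact h2
  ext x
  by_cases hx : x = v
  · subst hx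
    by_contra hne
    obtain ⟨t, ht, htc⟩ := clique_surj hT C' (C x)
    have htx : t ≠ x := by
      rintro rfl
      exact hne (by rw [htc])
    have h3 := C.valid (hT.isClique ht hv htx)
    rw [h1 t htx] at h3
    exact h3 htc
  · rw [h1 x hx]

/-- The number of neighbours of `u` in `T`. -/
def nb {V : Type} (G : SimpleGraph V) [DecidableRel G.Adj] (T : Finset V) (u : V) : ℕ := #{t ∈ T | G.Adj u t}

variable [DecidableRel G.Adj]

theorem sum_nb (T : Finset V) : ∑ u, nb G T u = ∑ v ∈ T, G.degree v := by
  unfold nb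
  have h1 : ∀ v ∈ T, G.degree v = ∑ u, if G.Adj u v then 1 else 0 := by
    intro v _
    rw [← card_filter, ← card_neighborFinset_eq_degree]
    congr 1
    ext u
    simp [G.adj_comm]
  rw [sum_congr rfl h1, sum_comm]
  refine sum_congr rfl fun u _ => ?_
  rw [card_filter]

theorem nb_le {T : Finset V} (hT : G.IsNClique q T) (C : G.Coloring (Fin q)) (u : V) :
    nb G T u ≤ q - 1 := by
  obtain ⟨t, ht, htc⟩ := clique_surj hT C (C u)
  have h1 : ({s ∈ T | G.Adj u s}) ⊆ T.erase t := by
    intro s hs
    obtain ⟨hs1, hs2⟩ := mem_filter.mp hs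
    refine mem_erase.mpr ⟨?_, hs1⟩
    rintro rfl
    exact C.valid hs2 htc.symm
  have h2 := card_le_card h1
  rw [card_erase_of_mem ht, hT.card_eq] at h2
  exact h2

/-- The bound for the number of colourings by a `q`-clique. -/
theorem colour_bound {T : Finset V} (hT : G.IsNClique q T) (C₀ : G.Coloring (Fin q)) :
    ∃ D, D + ∑ v ∈ T, G.degree v = (q - 1) * Fintype.card V ∧
      Nat.card (G.Coloring (Fin q)) ≤ q.factorial * 2 ^ D := by
  classical
  refine ⟨∑ u, (q - 1 - nb G T u), ?_, ?_⟩
  · rw [← sum_nb, ← sum_add_distrib]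
    have h1 : ∀ u ∈ (univ : Finset V), q - 1 - nb G T u + nb G T u = q - 1 := by
      intro u _
      have := nb_le hT C₀ u
      omega
    rw [sum_congr rfl h1, sum_const, card_univ, smul_eq_mul, mul_comm]
  · -- the fibres
    let A : (T ↪ Fin q) → V → Finset (Fin q) := fun ρ u => {c | ∀ t : T, G.Adj u t → c ≠ ρ t}
    have hA : ∀ ρ u, #(A ρ u) ≤ q - nb G T u := by
      intro ρ u
      let B : Finset (Fin q) := ({t : T | G.Adj u t} : Finset T).map ρ
      have hB : #B = nb G T u := by
        rw [card_map]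
        unfold nb
        have h1 : ({t ∈ T | G.Adj u t}) = ({t : T | G.Adj u t} : Finset T).map (Function.Embedding.subtype _) := by
          ext t
          simp [and_comm]
        rw [h1, card_map]
      have hAB : A ρ u = univ \ B := by
        ext c
        simp only [A, B, mem_filter, mem_univ, true_and, mem_sdiff, mem_map, not_exists, not_and]
        constructor
        · intro h t ht hc
          exact h t ht hc.symm
        · intro h t ht hc
          exact h t ht hc.symm
      rw [hAB, card_sdiff_of_subset (subset_univ _), hB, card_univ, Fintype.card_fin]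
    let S : Type := Σ ρ : (T ↪ Fin q), ∀ u : {u // u ∉ T}, {c : Fin q // c ∈ A ρ u}
    have hinjT : ∀ C : G.Coloring (Fin q), Function.Injective (fun t : T => C t.1) := by
      intro C x y hxy
      by_contra hne
      exact C.valid (hT.isClique x.2 y.2 (fun h => hne (Subtype.ext h))) hxy
    let Φ : G.Coloring (Fin q) → S := fun C => ⟨⟨fun t => C t.1, hinjT C⟩, fun u =>
      ⟨C u.1, by
        simp only [A, mem_filter, mem_univ, true_and]
        intro t ht
        exact C.valid ht⟩⟩
    have hΦ : Function.Injective Φ := by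
      intro C C' h
      have h1 : (Φ C).1 = (Φ C').1 := by rw [h]
      have h2 : ∀ t ∈ T, C t = C' t := by
        intro t ht
        have := congrArg (fun ρ : (T ↪ Fin q) => ρ ⟨t, ht⟩) h1
        exact this
      have h3 : ∀ u ∉ T, C u = C' u := by
        intro u hu
        have h4 : ∀ x : S, ∀ y : S, x = y → (x.2 ⟨u, hu⟩).1 = (y.2 ⟨u, hu⟩).1 := by
          rintro x _ rfl
          rfl
        exact h4 _ _ h
      ext x
      by_cases hx : x ∈ T
      · rw [h2 x hx]
      · rw [h3 x hx]
    have hcard := Nat.card_le_card_of_injective Φ hΦ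
    refine hcard.trans ?_
    have hS : Nat.card S = ∑ ρ : (T ↪ Fin q), ∏ u : {u // u ∉ T}, #(A ρ u) := by
      rw [Nat.card_eq_fintype_card, Fintype.card_sigma]
      refine sum_congr rfl fun ρ _ => ?_
      rw [Fintype.card_pi]
      refine prod_congr rfl fun u _ => ?_
      rw [Fintype.card_coe]
    have hpow : ∀ i : ℕ, i + 1 ≤ 2 ^ i := fun i => Nat.lt_two_pow_self
    have hbd : ∀ ρ : (T ↪ Fin q), ∏ u : {u // u ∉ T}, #(A ρ u) ≤ 2 ^ ∑ u, (q - 1 - nb G T u) := by
      intro ρ
      calc ∏ u : {u // u ∉ T}, #(A ρ u) ≤ ∏ u : {u // u ∉ T}, 2 ^ (q - 1 - nb G T u.1) := by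
            refine prod_le_prod' fun u _ => (hA ρ u.1).trans ?_
            refine le_trans ?_ (hpow _)
            omega
        _ = 2 ^ ∑ u : {u // u ∉ T}, (q - 1 - nb G T u.1) := by rw [prod_pow_eq_pow_sum]
        _ ≤ 2 ^ ∑ u, (q - 1 - nb G T u) := by
            refine Nat.pow_le_pow_right (by norm_num) ?_
            have h := sum_le_sum_of_subset (f := fun u => q - 1 - nb G T u)
              (subset_univ ((univ : Finset {u // u ∉ T}).map (Function.Embedding.subtype _)))
            rw [sum_map] at h
            exact h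
    rw [hS]
    calc ∑ ρ : (T ↪ Fin q), ∏ u : {u // u ∉ T}, #(A ρ u)
        ≤ ∑ _ρ : (T ↪ Fin q), 2 ^ ∑ u, (q - 1 - nb G T u) := sum_le_sum fun ρ _ => hbd ρ
      _ = q.factorial * 2 ^ ∑ u, (q - 1 - nb G T u) := by
          rw [sum_const, smul_eq_mul, card_univ, Fintype.card_embedding_eq, Fintype.card_fin,
            Fintype.card_coe, hT.card_eq, Nat.descFactorial_self]

/-- The case distinction at the end of the induction. -/
theorem arith {q k n D S : ℕ} (hq : 2 ≤ q) (h1 : D + S = (q - 1) * (n + 1)) (h2 : q * (inc q k n + 1) ≤ S) :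
    D + 1 ≤ k := by
  obtain ⟨s, rfl⟩ := Nat.exists_eq_add_of_le' hq
  have e1 : s + 2 - 1 = s + 1 := by omega
  rw [e1] at h1
  unfold inc at h2
  rw [e1] at h2
  split_ifs at h2 with h
  · -- many colourings, few vertices
    obtain ⟨μ, hμ⟩ : ∃ μ, μ = n / (s + 1) := ⟨_, rfl⟩
    rw [← hμ] at h2
    have h3 : (s + 1) * μ ≤ n := by
      rw [hμ]; exact Nat.mul_div_le n (s + 1)
    have h4 : μ < k := by
      by_contra hcon
      have : (s + 1) * k ≤ (s + 1) * μ := Nat.mul_le_mul_left _ (by omega)
      omega
    have h5 : μ ≤ n := by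
      rw [hμ]; exact Nat.div_le_self _ _
    have h6 : (s + 2) * (n - μ + 1) + (s + 2) * μ = (s + 2) * (n + 1) := by
      rw [← Nat.mul_add]
      congr 1
      omega
    nlinarith
  · rw [not_lt] at h
    obtain ⟨j, rfl⟩ := Nat.exists_eq_add_of_le h
    rw [Nat.add_sub_cancel_left] at h2
    obtain ⟨d, hd⟩ : ∃ d, d = j / (s + 2) := ⟨_, rfl⟩
    rw [← hd] at h2
    have h3 : (s + 2) * d ≤ j := by
      rw [hd]; exact Nat.mul_div_le j (s + 2)
    have h4 : d ≤ j := by
      rw [hd]; exact Nat.div_le_self _ _
    have h5 : (s + 1) * k + j - k - d + 1 = s * k + (j - d) + 1 := by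
      have : (s + 1) * k = s * k + k := by ring
      omega
    rw [h5] at h2
    have h6 : (s + 2) * (s * k + (j - d) + 1) + (s + 2) * d = (s + 2) * (s * k + j + 1) := by
      rw [← Nat.mul_add]
      congr 1
      omega
    nlinarith

theorem upper {q : ℕ} (hq : 2 ≤ q) (k : ℕ) : ∀ n : ℕ, ∀ (V : Type) [Fintype V] [DecidableEq V]
    (G : SimpleGraph V) [DecidableRel G.Adj], Fintype.card V = n →
    q.factorial * 2 ^ k < 2 * Nat.card (G.Coloring (Fin q)) → #G.edgeFinset ≤ H q k n := by
  intro n
  induction n with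
  | zero =>
    intro V _ _ G _ hV _
    have h1 := two_mul_card_edgeFinset (G := G)
    have hE : IsEmpty V := Fintype.card_eq_zero_iff.mp hV
    have h2 : #(univ.filter fun (x, y) ↦ G.Adj x y) = 0 := by
      rw [card_eq_zero]
      ext p
      exact hE.elim p.1
    rw [h2] at h1
    omega
  | succ n ih =>
    intro V _ _ G _ hV hcol
    by_contra hcon
    rw [not_le] at hcon
    have hne : Nat.card (G.Coloring (Fin q)) ≠ 0 := by
      intro h0
      rw [h0] at hcol
      omega
    obtain ⟨C₀⟩ : Nonempty (G.Coloring (Fin q)) := by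
      by_contra hE
      rw [not_nonempty_iff] at hE
      exact hne Nat.card_of_isEmpty
    -- a clique
    have hclique : ¬ G.CliqueFree q := by
      intro hcf
      have e1 : q - 1 + 1 = q := by omega
      have h1 : G.CliqueFree (q - 1 + 1) := by rw [e1]; exact hcf
      have h2 := h1.card_edgeFinset_le
      have h3 := card_edgeFinset_turanGraph (n := Fintype.card V) (r := q - 1)
      have h4 : #G.edgeFinset ≤ tn (q - 1) (n + 1) := by
        rw [← turan_card (by omega), ← hV, h3]
        exact h2
      have h5 := tn_le_H hq k (n + 1)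
      omega
    rw [CliqueFree] at hclique
    obtain ⟨T, hT⟩ : ∃ T, G.IsNClique q T := by
      by_contra hE
      exact hclique (fun t ht => hE ⟨t, ht⟩)
    have hdeg : ∀ v ∈ T, inc q k n + 1 ≤ G.degree v := by
      intro v hv
      have h1 := card_edgeFinset_induce_compl_singleton G v
      have h2 := card_edgeFinset_deleteIncidenceSet G v
      have hcard : Fintype.card ({v}ᶜ : Set V) = n := by
        rw [Fintype.card_compl_set, hV]
        simp
      have h3 := ih ({v}ᶜ : Set V) (G.induce ({v}ᶜ : Set V)) hcard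
        (lt_of_lt_of_le hcol (Nat.mul_le_mul_left 2 (colour_delete hT hv)))
      rw [h1, h2] at h3
      rw [H_succ] at hcon
      omega
    obtain ⟨D, hD, hP⟩ := colour_bound hT C₀
    have hsum : q * (inc q k n + 1) ≤ ∑ v ∈ T, G.degree v := by
      have := card_nsmul_le_sum T (fun v => G.degree v) (inc q k n + 1) hdeg
      rw [hT.card_eq, smul_eq_mul] at this
      exact this
    rw [hV] at hD
    have hDk := arith hq hD hsum
    have h6 : 2 * Nat.card (G.Coloring (Fin q)) ≤ q.factorial * 2 ^ k := by
      calc 2 * Nat.card (G.Coloring (Fin q)) ≤ 2 * (q.factorial * 2 ^ D) := Nat.mul_le_mul_left 2 hP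
        _ = q.factorial * 2 ^ (D + 1) := by ring
        _ ≤ q.factorial * 2 ^ k := Nat.mul_le_mul_left _ (Nat.pow_le_pow_right (by norm_num) hDk)
    omega

end Pool.Agent.H30T
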